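import Pool.Agent.Lib_helper47.MOD.Defs
import Pool.Agent.Lib_helper95.RC.Int

/-!
# `In` as an average of `Tr (D - z (A - D))_+^p + Tr (-D - z (A + D))_+^p`
-/

open scoped BigOperators ComplexOrder Kronecker MatrixOrder Topology ENNReal
open MeasureTheory Set Matrix Filter

namespace Pool.Agent.RC.LAY

open INE SER DEC

variable {ι : Type} [Fintype ι] [DecidableEq ι]

/-- `Tr (D - x A)_+^p + Tr (-D - x A)_+^p` -/
noncomputable def fx (p : ℝ) (A D : Matrix ι ι ℂ) (x : ℝ) : ℝ :=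
  trF (pp p) (D - (x : ℂ) • A) + trF (pp p) (-D - (x : ℂ) • A)

/-! ## `trF` of multiples -/

theorem trF_real_smul (f : ℝ → ℝ) {M : Matrix ι ι ℂ} (hM : M.IsHermitian) (c : ℝ) :
    trF f ((c : ℂ) • M) = trF (fun x => f (c * x)) M := by
  obtain ⟨U, h1, h2, h3⟩ := exists_diag_eig hM
  have e : (c : ℂ) • M =
      U * Matrix.diagonal (fun i => ((c * hM.eigenvalues i : ℝ) : ℂ)) * Uᴴ := by
    have e1 : Matrix.diagonal (fun i => ((c * hM.eigenvalues i : ℝ) : ℂ)) =
        (c : ℂ) • Matrix.diagonal (fun i => (hM.eigenvalues i : ℂ)) := by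
      ext i j
      by_cases hij : i = j
      · subst hij; simp
      · simp [hij]
    rw [e1, ← h3, Matrix.mul_smul, Matrix.smul_mul]
    congr 1
    calc M = (U * Uᴴ) * M * (U * Uᴴ) := by rw [h1]; simp
      _ = _ := by noncomm_ring
  rw [e, TRF.trF_conj f h2 _]
  unfold trF
  rw [dif_pos hM]

theorem trF_neg (f : ℝ → ℝ) {M : Matrix ι ι ℂ} (hM : M.IsHermitian) :
    trF f (-M) = trF (fun x => f (-x)) M := by
  have h := trF_real_smul f hM (-1)
  have e : (((-1 : ℝ)) : ℂ) • M = -M := by push_cast; rw [neg_one_smul]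
  rw [e] at h
  rw [h]
  congr 1
  funext x
  rw [neg_one_mul]

theorem trF_pp_smul {p : ℝ} {M : Matrix ι ι ℂ} (hM : M.IsHermitian) {c : ℝ} (hc : 0 ≤ c) :
    trF (pp p) ((c : ℂ) • M) = c ^ p * trF (pp p) M := by
  rw [trF_real_smul _ hM c]
  unfold trF
  rw [dif_pos hM, dif_pos hM, Finset.mul_sum]
  apply Finset.sum_congr rfl
  intro i _
  show (max (c * hM.eigenvalues i) 0) ^ p = c ^ p * (max (hM.eigenvalues i) 0) ^ p
  have : max (c * hM.eigenvalues i) 0 = c * max (hM.eigenvalues i) 0 := by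
    rw [mul_max_of_nonneg _ _ hc, mul_zero]
  rw [this, Real.mul_rpow hc (le_max_right _ _)]

/-! ## Layer cake for two matrices -/

theorem layer2 {p : ℝ} (hp : 0 < p) {M N : Matrix ι ι ℂ} (hM : M.IsHermitian)
    (hN : N.IsHermitian) :
    ENNReal.ofReal (trF (pp p) M + trF (pp p) N) = ENNReal.ofReal p * ∫⁻ t in Ioi (0 : ℝ),
      ENNReal.ofReal (trF i0 (M - (t : ℂ) • (1 : Matrix ι ι ℂ)) +
        trF i0 (N - (t : ℂ) • (1 : Matrix ι ι ℂ))) * ENNReal.ofReal (t ^ (p - 1)) := by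
  rw [ENNReal.ofReal_add (trF_nonneg (pp_nonneg p) _) (trF_nonneg (pp_nonneg p) _),
    layer hp hM, layer hp hN, ← mul_add, ← lintegral_add_left]
  · congr 1
    apply lintegral_congr
    intro t
    rw [ENNReal.ofReal_add (trF_nonneg i0_nonneg _) (trF_nonneg i0_nonneg _), add_mul]
  · have h1 : Measurable fun t : ℝ => trF i0 (M - (t : ℂ) • (1 : Matrix ι ι ℂ)) := by
      apply measurable_i0 (fun t : ℝ => M - (t : ℂ) • (1 : Matrix ι ι ℂ))
      · fun_prop
      · intro t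
        exact hM.sub (isHermitian_real_smul t Matrix.isHermitian_one)
    exact h1.ennreal_ofReal.mul (measurable_id.pow_const _).ennreal_ofReal

/-- the counting function -/
noncomputable def cnt (A D : Matrix ι ι ℂ) (s x : ℝ) : ℝ :=
  trF i0 (D - (s : ℂ) • (A + (x : ℂ) • (1 : Matrix ι ι ℂ))) +
    trF i0 (-D - (s : ℂ) • (A + (x : ℂ) • (1 : Matrix ι ι ℂ)))

theorem cnt_nonneg (A D : Matrix ι ι ℂ) (s x : ℝ) : 0 ≤ cnt A D s x :=
  add_nonneg (trF_nonneg i0_nonneg _) (trF_nonneg i0_nonneg _)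

theorem measurable_cnt {A D : Matrix ι ι ℂ} (hA : A.IsHermitian) (hD : D.IsHermitian) :
    Measurable (Function.uncurry (cnt A D)) := by
  have h : ∀ F : Matrix ι ι ℂ, F.IsHermitian → Measurable fun z : ℝ × ℝ =>
      trF i0 (F - (z.1 : ℂ) • (A + (z.2 : ℂ) • (1 : Matrix ι ι ℂ))) := by
    intro F hF
    apply measurable_i0 (fun z : ℝ × ℝ => F - (z.1 : ℂ) • (A + (z.2 : ℂ) • (1 : Matrix ι ι ℂ)))
    · fun_prop
    · intro z
      exact hF.sub (isHermitian_real_smul z.1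
        (hA.add (isHermitian_real_smul z.2 Matrix.isHermitian_one)))
  exact (h D hD).add (h (-D) hD.neg)

/-- `tn` as a moment of the counting function -/
theorem tn_layer {A D : Matrix ι ι ℂ} (hA : A.PosDef) (hD : D.IsHermitian) {n : ℕ} (hn : Even n)
    (hn0 : 0 < n) {x : ℝ} (hx : 0 ≤ x) :
    ENNReal.ofReal (tn A D n x) = ENNReal.ofReal (n : ℝ) * ∫⁻ s in Ioi (0 : ℝ),
      ENNReal.ofReal (cnt A D s x) * ENNReal.ofReal (s ^ ((n : ℝ) - 1)) := by
  have hAx := shift_posDef hA hx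
  obtain ⟨S, hS, h1, h2⟩ := exists_congr hAx
  set Y := Sᴴ * D * S with hY
  have hYh : Y.IsHermitian := Matrix.isHermitian_conjTranspose_mul_mul S hD
  have e1 : tn A D n x = trF (pp (n : ℝ)) Y + trF (pp (n : ℝ)) (-Y) := by
    have t1 : tn A D n x = ((Y ^ n).trace).re := by
      unfold tn Res
      rw [← h2]
      have e2 : (S * Sᴴ * D) ^ n * S = S * Y ^ n := by
        have e3 : ∀ k : ℕ, (S * Sᴴ * D) ^ k * S = S * Y ^ k := by
          intro k
          induction k with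
          | zero => simp
          | succ k ih =>
            rw [pow_succ', pow_succ', mul_assoc, ih, hY]
            simp only [mul_assoc]
        exact e3 n
      obtain ⟨T, hT⟩ := hS.exists_right_inv
      have hT' : T * S = 1 := mul_eq_one_comm.mp hT
      have e4 : (S * Sᴴ * D) ^ n = S * Y ^ n * T := by
        rw [← e2, mul_assoc _ S T, hT, mul_one]
      rw [e4, Matrix.trace_mul_comm, ← mul_assoc, hT', one_mul]
    have t2 := TRF.trF_poly (Polynomial.X ^ n) hYh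
    simp only [Polynomial.eval_pow, Polynomial.eval_X, map_pow, Polynomial.aeval_X] at t2
    rw [t1, ← t2, trF_neg _ hYh]
    unfold trF
    rw [dif_pos hYh, dif_pos hYh, dif_pos hYh, ← Finset.sum_add_distrib]
    apply Finset.sum_congr rfl
    intro i _
    show hYh.eigenvalues i ^ n = max (hYh.eigenvalues i) 0 ^ (n : ℝ) +
      max (-hYh.eigenvalues i) 0 ^ (n : ℝ)
    rcases le_total 0 (hYh.eigenvalues i) with h | h
    · rw [max_eq_left h, max_eq_right (by linarith : -hYh.eigenvalues i ≤ 0), Real.rpow_natCast,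
        Real.zero_rpow (by exact_mod_cast hn0.ne'), add_zero]
    · rw [max_eq_right h, max_eq_left (by linarith : 0 ≤ -hYh.eigenvalues i),
        Real.zero_rpow (by exact_mod_cast hn0.ne'), zero_add, Real.rpow_natCast, hn.neg_pow]
  have hcount : ∀ F : Matrix ι ι ℂ, F.IsHermitian → ∀ s : ℝ,
      trF i0 (F - (s : ℂ) • (A + (x : ℂ) • (1 : Matrix ι ι ℂ))) =
        trF i0 (Sᴴ * F * S - (s : ℂ) • (1 : Matrix ι ι ℂ)) := by
    intro F hF s
    have hM : (F - (s : ℂ) • (A + (x : ℂ) • (1 : Matrix ι ι ℂ))).IsHermitian :=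
      hF.sub (isHermitian_real_smul s hAx.isHermitian)
    rw [← trF_i0_congr hM hS]
    have e : Sᴴ * (F - (s : ℂ) • (A + (x : ℂ) • (1 : Matrix ι ι ℂ))) * S =
        Sᴴ * F * S - (s : ℂ) • (1 : Matrix ι ι ℂ) := by
      rw [mul_sub, sub_mul, Matrix.mul_smul, Matrix.smul_mul, h1]
    rw [e]
  rw [e1, layer2 (by exact_mod_cast hn0) hYh hYh.neg]
  congr 1
  apply lintegral_congr
  intro s
  congr 2
  unfold cnt
  rw [hcount D hD s, hcount (-D) hD.neg s]
  congr 2
  rw [hY]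
  simp

theorem fx_layer {A D : Matrix ι ι ℂ} (hA : A.IsHermitian) (hD : D.IsHermitian) {p : ℝ}
    (hp : 0 < p) {s : ℝ} (hs0 : 0 < s) :
    ENNReal.ofReal (fx p A D s) = ∫⁻ x in Ioi (0 : ℝ), ENNReal.ofReal p *
      (ENNReal.ofReal (x ^ (p - 1)) * (ENNReal.ofReal (cnt A D s x) * ENNReal.ofReal (s ^ p))) := by
  have h : ∀ F : Matrix ι ι ℂ, F.IsHermitian → (F - (s : ℂ) • A).IsHermitian := fun F hF =>
    hF.sub (isHermitian_real_smul s hA)
  unfold fx
  rw [layer2 hp (h D hD) (h (-D) hD.neg), lintegral_scale _ hs0,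
    ← lintegral_const_mul' _ _ ENNReal.ofReal_ne_top,
    ← lintegral_const_mul' _ _ ENNReal.ofReal_ne_top]
  apply setLIntegral_congr_fun measurableSet_Ioi
  intro x hx
  have hx0 : 0 < x := hx
  dsimp only
  have a1 : ∀ F : Matrix ι ι ℂ, F - (s : ℂ) • A - (((s * x : ℝ)) : ℂ) • (1 : Matrix ι ι ℂ) =
      F - (s : ℂ) • (A + (x : ℂ) • (1 : Matrix ι ι ℂ)) := by
    intro F
    rw [smul_add, smul_smul]
    push_cast
    abel
  have a2 : (s * x) ^ (p - 1) = s ^ (p - 1) * x ^ (p - 1) := Real.mul_rpow hs0.le hx0.le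
  have a3 : s ^ p = s * s ^ (p - 1) := by
    rw [Real.rpow_sub_one hs0.ne']
    field_simp
  rw [a1, a1, a2, a3, ENNReal.ofReal_mul (Real.rpow_nonneg hs0.le _), ENNReal.ofReal_mul hs0.le]
  change _ = ENNReal.ofReal p * (ENNReal.ofReal (x ^ (p - 1)) *
    (ENNReal.ofReal (trF i0 (D - (s : ℂ) • (A + (x : ℂ) • (1 : Matrix ι ι ℂ))) +
      trF i0 (-D - (s : ℂ) • (A + (x : ℂ) • (1 : Matrix ι ι ℂ)))) * _))
  ring

/-- the layer identity for lower integrals -/
theorem lay_lintegral {A D : Matrix ι ι ℂ} (hA : A.PosDef) (hD : D.IsHermitian) {p : ℝ}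
    (hp : 0 < p) {n : ℕ} (hn : Even n) (hn0 : 0 < n) :
    ENNReal.ofReal (n : ℝ) * ∫⁻ s in Ioi (0 : ℝ), ENNReal.ofReal (s ^ ((n : ℝ) - 1 - p)) *
        ENNReal.ofReal (fx p A D s) =
      ENNReal.ofReal p * ∫⁻ x in Ioi (0 : ℝ),
        ENNReal.ofReal (x ^ (p - 1)) * ENNReal.ofReal (tn A D n x) := by
  have hL : ∀ s ∈ Ioi (0 : ℝ), ENNReal.ofReal (s ^ ((n : ℝ) - 1 - p)) *
      ENNReal.ofReal (fx p A D s) = ∫⁻ x in Ioi (0 : ℝ), ENNReal.ofReal p *
        (ENNReal.ofReal (x ^ (p - 1)) *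
          (ENNReal.ofReal (cnt A D s x) * ENNReal.ofReal (s ^ ((n : ℝ) - 1)))) := by
    intro s hs
    have hs0 : 0 < s := hs
    rw [fx_layer hA.isHermitian hD hp hs0, ← lintegral_const_mul' _ _ ENNReal.ofReal_ne_top]
    apply lintegral_congr
    intro x
    have a4 : s ^ ((n : ℝ) - 1) = s ^ ((n : ℝ) - 1 - p) * s ^ p := by
      rw [← Real.rpow_add hs0]
      congr 1
      ring
    rw [a4, ENNReal.ofReal_mul (Real.rpow_nonneg hs0.le _)]
    ring
  have hR : ∀ x ∈ Ioi (0 : ℝ), ENNReal.ofReal (x ^ (p - 1)) * ENNReal.ofReal (tn A D n x) =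
      ENNReal.ofReal (x ^ (p - 1)) * (ENNReal.ofReal (n : ℝ) * ∫⁻ s in Ioi (0 : ℝ),
        (ENNReal.ofReal (cnt A D s x) * ENNReal.ofReal (s ^ ((n : ℝ) - 1)))) := by
    intro x hx
    have hx0 : 0 < x := hx
    rw [tn_layer hA hD hn hn0 hx0.le]
  rw [setLIntegral_congr_fun measurableSet_Ioi hL, setLIntegral_congr_fun measurableSet_Ioi hR,
    lintegral_lintegral_swap, ← lintegral_const_mul' _ _ ENNReal.ofReal_ne_top,
    ← lintegral_const_mul' _ _ ENNReal.ofReal_ne_top]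
  · apply lintegral_congr
    intro x
    rw [lintegral_const_mul' _ _ ENNReal.ofReal_ne_top,
      lintegral_const_mul' _ _ ENNReal.ofReal_ne_top]
    ring
  · have m1 : Measurable fun z : ℝ × ℝ => ENNReal.ofReal (z.2 ^ (p - 1)) :=
      (measurable_snd.pow_const _).ennreal_ofReal
    have m2 : Measurable fun z : ℝ × ℝ => ENNReal.ofReal (cnt A D z.1 z.2) :=
      (measurable_cnt hA.isHermitian hD).ennreal_ofReal
    have m3 : Measurable fun z : ℝ × ℝ => ENNReal.ofReal (z.1 ^ ((n : ℝ) - 1)) :=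
      (measurable_fst.pow_const _).ennreal_ofReal
    exact ((m1.mul (m2.mul m3)).const_mul _).aemeasurable

theorem fx_nonneg (p : ℝ) (A D : Matrix ι ι ℂ) (x : ℝ) : 0 ≤ fx p A D x :=
  add_nonneg (trF_nonneg (pp_nonneg p) _) (trF_nonneg (pp_nonneg p) _)

theorem continuous_fx {p : ℝ} (hp : 0 ≤ p) {A D : Matrix ι ι ℂ} (hA : A.IsHermitian)
    (hD : D.IsHermitian) : Continuous (fx p A D) := by
  have h : ∀ F : Matrix ι ι ℂ, F.IsHermitian →
      Continuous fun s : ℝ => trF (pp p) (F - (s : ℂ) • A) := by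
    intro F hF
    apply continuous_trF (pp p) (continuous_pp hp) (fun s : ℝ => F - (s : ℂ) • A)
    · fun_prop
    · intro s
      exact hF.sub (isHermitian_real_smul s hA)
  exact (h D hD).add (h (-D) hD.neg)

/-- the layer identity on the half line -/
theorem In_fx {A D : Matrix ι ι ℂ} (hA : A.PosDef) (hD : D.IsHermitian) {p : ℝ}
    (hp : 0 < p) {n : ℕ} (hn : Even n) (hpn : p < n) :
    IntegrableOn (fun s => s ^ ((n : ℝ) - 1 - p) * fx p A D s) (Ioi 0) ∧
      p * In p A D n = n * ∫ s in Ioi (0 : ℝ), s ^ ((n : ℝ) - 1 - p) * fx p A D s := by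
  have hn0' : (0 : ℝ) < n := hp.trans hpn
  have hn0 : 0 < n := by exact_mod_cast hn0'
  have hL := lay_lintegral hA hD hp hn hn0
  have it := integrableOn_tn p A D hA n hp hpn
  have nn1 : ∀ x ∈ Ioi (0 : ℝ), 0 ≤ x ^ (p - 1) * tn A D n x := fun x hx =>
    mul_nonneg (Real.rpow_nonneg (le_of_lt hx) _) (tn_nonneg A D hA hD n hn x hx)
  have nn2 : ∀ x ∈ Ioi (0 : ℝ), 0 ≤ x ^ ((n : ℝ) - 1 - p) * fx p A D x := fun x hx =>
    mul_nonneg (Real.rpow_nonneg (le_of_lt hx) _) (fx_nonneg p A D x)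
  have r1 : ∫⁻ x in Ioi (0 : ℝ), ENNReal.ofReal (x ^ (p - 1)) * ENNReal.ofReal (tn A D n x) =
      ENNReal.ofReal (In p A D n) := by
    unfold In
    rw [ofReal_integral_eq_lintegral_ofReal it]
    · apply setLIntegral_congr_fun measurableSet_Ioi
      intro x hx
      dsimp only
      rw [ENNReal.ofReal_mul (Real.rpow_nonneg (le_of_lt hx) _)]
    · filter_upwards [ae_restrict_mem measurableSet_Ioi] with x hx
      exact nn1 x hx
  have r2 : ∫⁻ s in Ioi (0 : ℝ), ENNReal.ofReal (s ^ ((n : ℝ) - 1 - p)) *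
      ENNReal.ofReal (fx p A D s) =
      ∫⁻ s in Ioi (0 : ℝ), ENNReal.ofReal (s ^ ((n : ℝ) - 1 - p) * fx p A D s) := by
    apply setLIntegral_congr_fun measurableSet_Ioi
    intro x hx
    dsimp only
    rw [ENNReal.ofReal_mul (Real.rpow_nonneg (le_of_lt hx) _)]
  have hcont : ContinuousOn (fun s => s ^ ((n : ℝ) - 1 - p) * fx p A D s) (Ioi 0) := by
    apply ContinuousOn.mul _ (continuous_fx hp.le hA.isHermitian hD).continuousOn
    intro x hx
    exact (Real.continuousAt_rpow_const x _ (Or.inl (ne_of_gt hx))).continuousWithinAt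
  have hmeas := hcont.aestronglyMeasurable (μ := volume) measurableSet_Ioi
  have hnn : 0 ≤ᵐ[volume.restrict (Ioi (0 : ℝ))] fun s => s ^ ((n : ℝ) - 1 - p) * fx p A D s := by
    filter_upwards [ae_restrict_mem measurableSet_Ioi] with x hx
    exact nn2 x hx
  rw [r1, r2] at hL
  have hfin : ∫⁻ s in Ioi (0 : ℝ), ENNReal.ofReal (s ^ ((n : ℝ) - 1 - p) * fx p A D s) ≠ ⊤ := by
    intro htop
    rw [htop] at hL
    have : ENNReal.ofReal (n : ℝ) * ⊤ = ⊤ := by
      apply ENNReal.mul_top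
      rw [Ne, ENNReal.ofReal_eq_zero]
      linarith
    rw [this] at hL
    exact (ENNReal.mul_ne_top ENNReal.ofReal_ne_top ENNReal.ofReal_ne_top) hL.symm
  have hint : IntegrableOn (fun s => s ^ ((n : ℝ) - 1 - p) * fx p A D s) (Ioi 0) := by
    refine ⟨hmeas, ?_⟩
    rw [hasFiniteIntegral_iff_ofReal hnn]
    exact lt_top_iff_ne_top.mpr hfin
  refine ⟨hint, ?_⟩
  have hI0 : 0 ≤ In p A D n := by
    unfold In
    exact setIntegral_nonneg measurableSet_Ioi nn1
  rw [integral_eq_lintegral_of_nonneg_ae hnn hmeas]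
  have h1 := congrArg ENNReal.toReal hL
  rw [ENNReal.toReal_mul, ENNReal.toReal_mul, ENNReal.toReal_ofReal hn0'.le,
    ENNReal.toReal_ofReal hp.le, ENNReal.toReal_ofReal hI0] at h1
  exact h1.symm

end Pool.Agent.RC.LAY
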