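import Pool.Agent.Lib_helper90.MOD.Lay
import Pool.Agent.Lib_helper95.RC.Main02

/-!
# `In` as an average of `tau`: the variable `z = x / (1 - x)`
-/

open scoped BigOperators ComplexOrder Kronecker MatrixOrder Topology ENNReal
open MeasureTheory Set Matrix Filter

namespace Pool.Agent.RC.LAY

open INE SER DEC

variable {ι : Type} [Fintype ι] [DecidableEq ι]

theorem trF_pp_nonpos {p : ℝ} (hp : 0 < p) {M : Matrix ι ι ℂ} (hM : (-M).PosSemidef) :
    trF (pp p) M = 0 := by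
  have hMh : M.IsHermitian := by
    have := hM.isHermitian.neg
    rwa [neg_neg] at this
  have h := trF_neg (pp p) hM.isHermitian
  rw [neg_neg] at h
  rw [h]
  unfold trF
  rw [dif_pos hM.isHermitian]
  apply Finset.sum_eq_zero
  intro i _
  show (max (-(hM.isHermitian.eigenvalues i)) 0) ^ p = 0
  rw [max_eq_right (neg_nonpos.2 (hM.eigenvalues_nonneg i)), Real.zero_rpow hp.ne']

theorem smul_psd {M : Matrix ι ι ℂ} (hM : M.PosSemidef) {c : ℝ} (hc : 0 ≤ c) :
    ((c : ℂ) • M).PosSemidef := by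
  apply hM.smul
  exact_mod_cast hc

/-- `fx` vanishes beyond `1` -/
theorem fx_eq_zero {p : ℝ} (hp : 0 < p) {A D : Matrix ι ι ℂ} (h : IsPair A D) {x : ℝ}
    (hx : 1 ≤ x) : fx p A D x = 0 := by
  have key : ∀ F : Matrix ι ι ℂ, (A - F).PosSemidef → trF (pp p) (F - (x : ℂ) • A) = 0 := by
    intro F hF
    apply trF_pp_nonpos hp
    have e : -(F - (x : ℂ) • A) = (A - F) + ((x - 1 : ℝ) : ℂ) • A := by
      push_cast
      rw [sub_smul, one_smul]
      abel
    rw [e]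
    exact hF.add (smul_psd h.pos.posSemidef (by linarith))
  unfold fx
  rw [key D h.sub, key (-D) (by rw [sub_neg_eq_add]; exact h.add), add_zero]

/-- `fx` in the variable `z` -/
theorem fx_zeta {p : ℝ} {A D : Matrix ι ι ℂ} (hA : A.IsHermitian) (hD : D.IsHermitian) {z : ℝ}
    (hz : 0 < z) : fx p A D (z / (1 + z)) = ((1 + z)⁻¹) ^ p * tau p A D z := by
  have h1 : (0 : ℝ) < 1 + z := by linarith
  have h1' : ((1 + z : ℝ) : ℂ) ≠ 0 := by exact_mod_cast h1.ne'
  have k1 : D - ((z / (1 + z) : ℝ) : ℂ) • A = (((1 + z)⁻¹ : ℝ) : ℂ) • (D - (z : ℂ) • (A - D)) := by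
    have : D = (((1 + z)⁻¹ : ℝ) : ℂ) • (((1 + z : ℝ) : ℂ) • D) := by
      rw [smul_smul]
      push_cast at h1' ⊢
      rw [inv_mul_cancel₀ h1', one_smul]
    conv_lhs => rw [this]
    rw [div_eq_inv_mul, Complex.ofReal_mul, mul_smul, ← smul_sub]
    congr 1
    push_cast
    rw [add_smul, one_smul, smul_sub]
    abel
  have k2 : -D - ((z / (1 + z) : ℝ) : ℂ) • A =
      (((1 + z)⁻¹ : ℝ) : ℂ) • (-D - (z : ℂ) • (A + D)) := by
    have : -D = (((1 + z)⁻¹ : ℝ) : ℂ) • (((1 + z : ℝ) : ℂ) • (-D)) := by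
      rw [smul_smul]
      push_cast at h1' ⊢
      rw [inv_mul_cancel₀ h1', one_smul]
    conv_lhs => rw [this]
    rw [div_eq_inv_mul, Complex.ofReal_mul, mul_smul, ← smul_sub]
    congr 1
    push_cast
    rw [add_smul, one_smul, smul_add, smul_neg]
    abel
  have g1 : (D - (z : ℂ) • (A - D)).IsHermitian := hD.sub (isHermitian_real_smul z (hA.sub hD))
  have g2 : (-D - (z : ℂ) • (A + D)).IsHermitian :=
    hD.neg.sub (isHermitian_real_smul z (hA.add hD))
  unfold fx tau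
  rw [k1, k2, trF_pp_smul g1 (inv_pos.2 h1).le, trF_pp_smul g2 (inv_pos.2 h1).le, mul_add]

theorem image_zeta : (fun z : ℝ => z / (1 + z)) '' Ioi 0 = Ioo 0 1 := by
  ext x
  constructor
  · rintro ⟨z, hz, rfl⟩
    have hz0 : 0 < z := hz
    have h1 : (0 : ℝ) < 1 + z := by linarith
    refine ⟨by positivity, ?_⟩
    show z / (1 + z) < 1
    rw [div_lt_one h1]
    linarith
  · rintro ⟨h0, h1⟩
    refine ⟨x / (1 - x), ?_, ?_⟩
    · have : 0 < 1 - x := by linarith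
      exact div_pos h0 this
    · have : (1 - x) ≠ 0 := by linarith
      show x / (1 - x) / (1 + x / (1 - x)) = x
      field_simp
      ring

theorem deriv_zeta {z : ℝ} (hz : 0 < z) :
    HasDerivAt (fun z : ℝ => z / (1 + z)) (((1 + z) ^ 2)⁻¹) z := by
  have h1 : (1 + z) ≠ 0 := by linarith
  have h := (hasDerivAt_id z).div ((hasDerivAt_id z).const_add 1) h1
  have e : ((1 + z) ^ 2)⁻¹ = (1 * (1 + z) - z * 1) / (1 + z) ^ 2 := by
    rw [one_mul, mul_one, add_sub_cancel_right, one_div]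
  rw [e]
  exact h

theorem inj_zeta : InjOn (fun z : ℝ => z / (1 + z)) (Ioi 0) := by
  intro a ha b hb hab
  have ha0 : 0 < a := ha
  have hb0 : 0 < b := hb
  have h1 : (1 + a) ≠ 0 := by linarith
  have h2 : (1 + b) ≠ 0 := by linarith
  have h3 : a / (1 + a) = b / (1 + b) := hab
  rw [div_eq_div_iff h1 h2] at h3
  linarith

theorem weight_zeta {p : ℝ} {n : ℝ} {z t : ℝ} (hz : 0 < z) :
    |((1 + z) ^ 2)⁻¹| • ((z / (1 + z)) ^ (n - 1 - p) * (((1 + z)⁻¹) ^ p * t)) =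
      z ^ (n - p - 1) * (1 + z) ^ (-n - 1) * t := by
  have h1 : (0 : ℝ) < 1 + z := by linarith
  rw [abs_of_nonneg (by positivity), smul_eq_mul, Real.div_rpow hz.le h1.le,
    Real.inv_rpow h1.le, ← Real.rpow_neg h1.le, ← Real.rpow_natCast, ← Real.rpow_neg h1.le,
    div_eq_mul_inv, ← Real.rpow_neg h1.le]
  have e : (1 + z) ^ (-n - 1) = (1 + z) ^ (-((2 : ℕ) : ℝ)) * (1 + z) ^ (-(n - 1 - p)) *
      (1 + z) ^ (-p) := by
    rw [← Real.rpow_add h1, ← Real.rpow_add h1]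
    congr 1
    push_cast
    ring
  rw [e, show n - p - 1 = n - 1 - p by ring]
  ring

/-- **`In` is an average of `tau`** -/
theorem In_tau {A D : Matrix ι ι ℂ} (h : IsPair A D) {p : ℝ} (hp : 0 < p) {n : ℕ}
    (hn : Even n) (hpn : p < n) :
    IntegrableOn (fun z => z ^ ((n : ℝ) - p - 1) * (1 + z) ^ (-(n : ℝ) - 1) * tau p A D z)
      (Ioi 0) ∧
    p * In p A D n = n * ∫ z in Ioi (0 : ℝ),
      z ^ ((n : ℝ) - p - 1) * (1 + z) ^ (-(n : ℝ) - 1) * tau p A D z := by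
  obtain ⟨h1, h2⟩ := In_fx h.pos h.herm hp hn hpn
  set g : ℝ → ℝ := fun s => s ^ ((n : ℝ) - 1 - p) * fx p A D s with hg
  have hsub : Ioo (0 : ℝ) 1 ⊆ Ioi 0 := fun x hx => hx.1
  have e0 : ∫ s in Ioi (0 : ℝ), g s = ∫ s in Ioo (0 : ℝ) 1, g s := by
    apply setIntegral_eq_of_subset_of_forall_sdiff_eq_zero measurableSet_Ioi hsub
    intro x hx
    have hx0 : 0 < x := hx.1
    have hx1 : 1 ≤ x := by
      by_contra hc
      exact hx.2 ⟨hx0, not_le.1 hc⟩
    show x ^ ((n : ℝ) - 1 - p) * fx p A D x = 0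
    rw [fx_eq_zero hp h hx1, mul_zero]
  have hderiv : ∀ z ∈ Ioi (0 : ℝ), HasDerivWithinAt (fun z : ℝ => z / (1 + z))
      (((1 + z) ^ 2)⁻¹) (Ioi 0) z := fun z hz => (deriv_zeta hz).hasDerivWithinAt
  have hcongr : ∀ z ∈ Ioi (0 : ℝ), |((1 + z) ^ 2)⁻¹| • g (z / (1 + z)) =
      z ^ ((n : ℝ) - p - 1) * (1 + z) ^ (-(n : ℝ) - 1) * tau p A D z := by
    intro z hz
    have hz0 : 0 < z := hz
    show |((1 + z) ^ 2)⁻¹| • ((z / (1 + z)) ^ ((n : ℝ) - 1 - p) * fx p A D (z / (1 + z))) = _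
    rw [fx_zeta h.pos.isHermitian h.herm hz0, weight_zeta hz0]
  have hint := (integrableOn_image_iff_integrableOn_abs_deriv_smul measurableSet_Ioi hderiv
    inj_zeta g).1 (by rw [image_zeta]; exact h1.mono_set hsub)
  constructor
  · exact hint.congr_fun hcongr measurableSet_Ioi
  · rw [h2, e0, ← image_zeta,
      integral_image_eq_integral_abs_deriv_smul measurableSet_Ioi hderiv inj_zeta g,
      setIntegral_congr_fun measurableSet_Ioi hcongr]

end Pool.Agent.RC.LAY
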